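import Pool.Agent.Helper89.Vol.Goals

/-! # MP_cd13d2_co, packet V36-D3 -/

set_option autoImplicit false

namespace Pool.Agent.Helper72.Vol.PkD3

open Pool.Agent.Helper89.Vol Pool.Agent.Helper86.Poly

theorem single_perm (σ : Equiv.Perm (Fin 6)) (i k : Fin 6) :
    (Pi.single (σ i) (1 : ℝ) : Fin 6 → ℝ) (σ k) = (Pi.single i (1 : ℝ) : Fin 6 → ℝ) k := by
  rcases eq_or_ne k i with rfl | h
  · simp
  · rw [Pi.single_eq_of_ne h, Pi.single_eq_of_ne fun h' => h (σ.injective h')]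

theorem thm : G_D3 := by
  intro x σ i j
  unfold Dt W
  have h := Matrix.det_permute σ (Matrix.of fun k : Fin 6 =>
    ![1, x k 0, x k 1, x k 2, (Pi.single (σ i) (1 : ℝ) : Fin 6 → ℝ) k,
      (Pi.single (σ j) (1 : ℝ) : Fin 6 → ℝ) k])
  rw [← h]
  congr 1
  ext k l
  simp only [Matrix.submatrix_apply, Matrix.of_apply, Function.comp, id, single_perm]

end Pool.Agent.Helper72.Vol.PkD3
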